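import Mathlib

/-!
# Alternating shortest odd cycles in generalized Mycielski graphs of odd cycles
-/

namespace Pool.Agent.Results.MP_118fda_co.MycielskiAlternating

/-- The generalized Mycielski graph `M_r(G)`. The vertex `some (v, i)` stands for `(v, i + 1)`
and `none` is the extra vertex `z`. -/
def genMycielski {W : Type*} (G : SimpleGraph W) (r : ℕ) : SimpleGraph (Option (W × Fin r)) where
  Adj
    | some (u, i), some (v, j) =>
        G.Adj u v ∧ ((i.val = 0 ∧ j.val = 0) ∨ j.val = i.val + 1 ∨ i.val = j.val + 1)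
    | some (_, i), none => i.val + 1 = r
    | none, some (_, j) => j.val + 1 = r
    | none, none => False
  symm := ⟨by
    rintro (_ | ⟨u, i⟩) (_ | ⟨v, j⟩) h
    · exact h
    · exact h
    · exact h
    · exact ⟨h.1.symm, by have := h.2; tauto⟩⟩
  loopless := ⟨by
    rintro (_ | ⟨u, i⟩) h
    · exact h
    · exact G.loopless.irrefl _ h.1⟩

/-- `D` is an orientation of the graph `G`: every edge gets exactly one of its two directions. -/
structure IsOrientation {V : Type*} (G : SimpleGraph V) (D : V → V → Prop) : Prop where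
  adj_iff : ∀ u v, G.Adj u v ↔ (D u v ∨ D v u)
  asymm : ∀ u v, D u v → ¬ D v u

/-- `c` lists the vertices of a cycle of length `n ≥ 3` of `G` in cyclic order. -/
def IsCycle {V : Type*} (G : SimpleGraph V) (n : ℕ) (c : ZMod n → V) : Prop :=
  3 ≤ n ∧ Function.Injective c ∧ ∀ i, G.Adj (c i) (c (i + 1))

/-- `c` is a shortest odd cycle of `G`. -/
def IsShortestOddCycle {V : Type*} (G : SimpleGraph V) (n : ℕ) (c : ZMod n → V) : Prop :=
  IsCycle G n c ∧ Odd n ∧ ∀ (m : ℕ) (c' : ZMod m → V), IsCycle G m c' → Odd m → n ≤ m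

/-- The oriented cycle `c` is alternating: every vertex of the cycle, with at most one exception,
is a source or a sink of the cycle. -/
def Alternating {V : Type*} (D : V → V → Prop) (n : ℕ) (c : ZMod n → V) : Prop :=
  ∃ i₀, ∀ i, i ≠ i₀ →
    (D (c i) (c (i + 1)) ∧ D (c i) (c (i - 1))) ∨ (D (c (i + 1)) (c i) ∧ D (c (i - 1)) (c i))

/-! ## From a colouring to an orientation -/

/-- The orientation given by a two-valued colouring: bichromatic edges go from `0` to `1`, the
others are oriented by a well-order. -/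
def ori {V : Type*} (G : SimpleGraph V) (col : V → ℤ) (u v : V) : Prop :=
  G.Adj u v ∧ (col u < col v ∨ (col u = col v ∧ WellOrderingRel u v))

lemma ori_isOrientation {V : Type*} (G : SimpleGraph V) (col : V → ℤ) :
    IsOrientation G (ori G col) := by
  refine ⟨fun u v => ⟨fun h => ?_, ?_⟩, ?_⟩
  · rcases lt_trichotomy (col u) (col v) with h1 | h1 | h1
    · exact Or.inl ⟨h, Or.inl h1⟩
    · rcases trichotomous_of WellOrderingRel u v with h2 | h2 | h2
      · exact Or.inl ⟨h, Or.inr ⟨h1, h2⟩⟩
      · exact absurd h2 h.ne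
      · exact Or.inr ⟨h.symm, Or.inr ⟨h1.symm, h2⟩⟩
    · exact Or.inr ⟨h.symm, Or.inl h1⟩
  · rintro (h | h)
    · exact h.1
    · exact h.1.symm
  · rintro u v ⟨-, h1⟩ ⟨-, h2⟩
    rcases h1 with h1 | ⟨h1, h1'⟩ <;> rcases h2 with h2 | ⟨h2, h2'⟩
    · omega
    · omega
    · omega
    · exact asymm_of WellOrderingRel h1' h2'

lemma alternating_of_unique {V : Type*} (G : SimpleGraph V) (col : V → ℤ)
    (hcol : ∀ v, col v = 0 ∨ col v = 1) (n : ℕ) (c : ZMod n → V) (hc : IsCycle G n c)
    (m : ZMod n) (hm : ∀ i, col (c i) = col (c (i + 1)) → i = m) :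
    Alternating (ori G col) n c := by
  obtain ⟨hn, -, hadj⟩ := hc
  have : Fact (1 < n) := ⟨by omega⟩
  have h1 : (1 : ZMod n) ≠ 0 := one_ne_zero
  have hadj' : ∀ i, G.Adj (c i) (c (i - 1)) := fun i => by
    have := (hadj (i - 1)).symm
    rwa [sub_add_cancel] at this
  -- edges after `i`
  have nxt : ∀ i, i ≠ m → col (c i) ≠ col (c (i + 1)) := fun i hi h => hi (hm i h)
  have prv : ∀ i, i ≠ m + 1 → col (c i) ≠ col (c (i - 1)) := fun i hi h => by
    apply hi
    have := hm (i - 1) (by rw [sub_add_cancel]; exact h.symm)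
    rw [← this, sub_add_cancel]
  have key : ∀ i, i ≠ m → i ≠ m + 1 →
      (ori G col (c i) (c (i + 1)) ∧ ori G col (c i) (c (i - 1))) ∨
      (ori G col (c (i + 1)) (c i) ∧ ori G col (c (i - 1)) (c i)) := by
    intro i h2 h3
    have e1 := nxt i h2
    have e2 := prv i h3
    rcases hcol (c i) with h | h
    · left
      have := hcol (c (i + 1))
      have := hcol (c (i - 1))
      exact ⟨⟨hadj i, Or.inl (by omega)⟩, ⟨hadj' i, Or.inl (by omega)⟩⟩
    · right
      have := hcol (c (i + 1))
      have := hcol (c (i - 1))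
      exact ⟨⟨(hadj i).symm, Or.inl (by omega)⟩, ⟨(hadj' i).symm, Or.inl (by omega)⟩⟩
  have hne : m ≠ m + 1 := fun h => h1 (by simpa using h.symm)
  have em := prv m hne
  have em1 := nxt (m + 1) hne.symm
  have hor := ((ori_isOrientation G col).adj_iff (c m) (c (m + 1))).1 (hadj m)
  by_cases hcm : col (c m) = col (c (m + 1))
  · have q1 := hcol (c m)
    have q2 := hcol (c (m - 1))
    have q3 := hcol (c (m + 1 + 1))
    rcases q1 with h | h
    · -- colour 0
      rcases hor with ho | ho
      · refine ⟨m + 1, fun i hi => ?_⟩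
        by_cases him : i = m
        · subst him
          left
          exact ⟨ho, ⟨hadj' i, Or.inl (by omega)⟩⟩
        · exact key i him hi
      · refine ⟨m, fun i hi => ?_⟩
        by_cases him : i = m + 1
        · subst him
          left
          refine ⟨⟨hadj _, Or.inl (by omega)⟩, ?_⟩
          rw [add_sub_cancel_right]; exact ho
        · exact key i hi him
    · rcases hor with ho | ho
      · refine ⟨m, fun i hi => ?_⟩
        by_cases him : i = m + 1
        · subst him
          right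
          refine ⟨⟨(hadj _).symm, Or.inl (by omega)⟩, ?_⟩
          rw [add_sub_cancel_right]; exact ho
        · exact key i hi him
      · refine ⟨m + 1, fun i hi => ?_⟩
        by_cases him : i = m
        · subst him
          right
          exact ⟨ho, ⟨(hadj' i).symm, Or.inl (by omega)⟩⟩
        · exact key i him hi
  · refine ⟨m, fun i hi => ?_⟩
    by_cases him : i = m + 1
    · subst him
      have q1 := hcol (c m)
      have q2 := hcol (c (m + 1))
      have q3 := hcol (c (m + 1 + 1))
      rw [add_sub_cancel_right]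
      rcases q2 with h | h
      · left
        exact ⟨⟨hadj _, Or.inl (by omega)⟩, ⟨(hadj m).symm, Or.inl (by omega)⟩⟩
      · right
        exact ⟨⟨(hadj _).symm, Or.inl (by omega)⟩, ⟨hadj m, Or.inl (by omega)⟩⟩
    · exact key i hi him

/-! ## Uniqueness of monochromatic edges from parity -/

lemma odd_mono {n : ℕ} [NeZero n] (hn : Odd n) (f : ZMod n → ℤ) (hf : ∀ i, f i = 0 ∨ f i = 1) :
    Odd (Finset.univ.filter fun i : ZMod n => f i = f (i + 1)).card := by
  have h1 : ∀ i : ZMod n, (if f i = f (i + 1) then (1 : ℤ) else 0) =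
      1 - f i - f (i + 1) + 2 * (f i * f (i + 1)) := by
    intro i
    rcases hf i with h | h <;> rcases hf (i + 1) with h' | h' <;> rw [h, h'] <;> norm_num
  have h2 : ∑ i : ZMod n, f (i + 1) = ∑ i : ZMod n, f i :=
    Equiv.sum_comp (Equiv.addRight (1 : ZMod n)) f
  have h3 : ((Finset.univ.filter fun i : ZMod n => f i = f (i + 1)).card : ℤ) =
      n - 2 * (∑ i : ZMod n, f i) + 2 * ∑ i : ZMod n, f i * f (i + 1) := by
    rw [Finset.card_filter]
    push_cast
    rw [Finset.sum_congr rfl fun i _ => h1 i, Finset.sum_add_distrib, Finset.sum_sub_distrib,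
      Finset.sum_sub_distrib, h2, ← Finset.mul_sum]
    simp [ZMod.card]
    ring
  obtain ⟨q, hq⟩ := hn
  rw [← Int.odd_coe_nat, h3]
  have hq' : (n : ℤ) = 2 * q + 1 := by exact_mod_cast hq
  refine ⟨q - (∑ i : ZMod n, f i) + ∑ i : ZMod n, f i * f (i + 1), ?_⟩
  linarith

lemma unique_of_regions {n : ℕ} [NeZero n] (hn : Odd n) (f : ZMod n → ℤ)
    (hf : ∀ i, f i = 0 ∨ f i = 1) (reg : ZMod n → ℕ) (h3 : ∀ i, reg i < 3)
    (hinj : ∀ i j, f i = f (i + 1) → f j = f (j + 1) → reg i = reg j → i = j)
    (hH : ∀ i j, f i = f (i + 1) → f j = f (j + 1) → reg i = 2 → reg j = 2) :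
    ∃ m, ∀ i, f i = f (i + 1) → i = m := by
  have hodd := odd_mono hn f hf
  have hne : (Finset.univ.filter fun i : ZMod n => f i = f (i + 1)).Nonempty := by
    rw [← Finset.card_pos]; exact hodd.pos
  obtain ⟨m, hm⟩ := hne
  have hm' : f m = f (m + 1) := (Finset.mem_filter.1 hm).2
  refine ⟨m, fun i hi => ?_⟩
  by_contra him
  have hr : reg i ≠ reg m := fun h => him (hinj i m hi hm' h)
  have h2m : reg m ≠ 2 := fun h => hr ((hH m i hm' hi h).trans h.symm)
  have h2i : reg i ≠ 2 := fun h => hr (h.trans (hH i m hi hm' h).symm)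
  have hS : (Finset.univ.filter fun i : ZMod n => f i = f (i + 1)) = {i, m} := by
    ext l
    simp only [Finset.mem_filter, Finset.mem_univ, true_and, Finset.mem_insert,
      Finset.mem_singleton]
    constructor
    · intro hl
      have h2l : reg l ≠ 2 := fun h => h2m (hH l m hl hm' h)
      have b1 := h3 l
      have b2 := h3 i
      have b3 := h3 m
      have : reg l = reg i ∨ reg l = reg m := by omega
      rcases this with h | h
      · exact Or.inl (hinj l i hl hi h)
      · exact Or.inr (hinj l m hl hm' h)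
    · rintro (rfl | rfl)
      · exact hi
      · exact hm'
  rw [hS, Finset.card_pair him] at hodd
  exact absurd hodd (by decide)

/-! ## The colouring and its monochromatic edges -/

/-- the colour of a vertex with horizontal coordinate `a` and depth `t` -/
def colr (k a t : ℤ) : ℤ := if -t ≤ a - k ∧ a - k ≤ t then (a - k) % 2 else (t + 1) % 2

lemma colr_val (k a t : ℤ) : colr k a t = 0 ∨ colr k a t = 1 := by
  unfold colr
  split_ifs <;> omega

/-- the relation between the coordinates of adjacent vertices -/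
structure St (k r a t a' t' : ℤ) : Prop where
  ht : t' = t + 1 ∨ t' = t - 1 ∨ (t = r - 1 ∧ t' = r - 1)
  ha : 0 ≤ t → 0 ≤ t' → (a' = a + 1 ∨ a' = a - 1 ∨ (a = 0 ∧ a' = 2 * k) ∨ (a = 2 * k ∧ a' = 0))

lemma St.symm {k r a t a' t' : ℤ} (h : St k r a t a' t') : St k r a' t' a t := by
  obtain ⟨h1, h2⟩ := h
  refine ⟨by omega, fun h3 h4 => ?_⟩
  have := h2 h4 h3
  omega

/-- Lipschitz estimate. -/
lemma lip {T : ℕ → ℤ} {N : ℕ} (hT : ∀ s, s < N → |T (s + 1) - T s| ≤ 1) :
    ∀ x y, x ≤ y → y ≤ N → |T y - T x| ≤ (y : ℤ) - x := by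
  intro x y hxy
  induction y, hxy using Nat.le_induction with
  | base => intro _; simp
  | succ y hxy ih =>
    intro hN
    have h1 := ih (by omega)
    have h2 := hT y (by omega)
    rw [abs_le] at h1 h2 ⊢
    push_cast
    omega

lemma caseB_norm {n : ℕ} [NeZero n] (hn : Odd n) (k r : ℤ) (t : ZMod n → ℤ) (hk : 1 ≤ k)
    (hnk : (n : ℤ) = 2 * k + 1) (hkr : k ≤ r) (ht0 : ∀ i, 0 ≤ t i ∧ t i ≤ r - 1)
    (hst : ∀ i, t (i + 1) = t i + 1 ∨ t (i + 1) = t i - 1 ∨ (t i = r - 1 ∧ t (i + 1) = r - 1)) :
    ∃ m, ∀ i : ZMod n, colr k i.val (t i) = colr k (i + 1).val (t (i + 1)) → i = m := by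
  have hn3 : 3 ≤ n := by omega
  set T : ℕ → ℤ := fun s => t (s : ZMod n) with hTdef
  have hTs : ∀ s : ℕ, T (s + 1) = T s + 1 ∨ T (s + 1) = T s - 1 ∨
      (T s = r - 1 ∧ T (s + 1) = r - 1) := by
    intro s
    have := hst (s : ZMod n)
    simp only [hTdef]
    push_cast
    exact this
  have hTb : ∀ s, 0 ≤ T s ∧ T s ≤ r - 1 := fun s => ht0 _
  have hL := lip (T := T) (N := n) (fun s _ => by rw [abs_le]; have := hTs s; omega)
  -- information from a monochromatic edge
  have info : ∀ s : ℕ, s + 1 < n → colr k s (T s) = colr k ((s + 1 : ℕ) : ℤ) (T (s + 1)) →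
      (k ≤ s ∧ T (s + 1) = s - k - 1 ∧ T s = s - k) ∨
      ((s : ℤ) < k ∧ T s = k - s - 2 ∧ T (s + 1) = k - s - 1) := by
    intro s hs h
    have h1 := hTs s
    have h2 := hTb s
    have h3 := hTb (s + 1)
    unfold colr at h
    push_cast at h
    split_ifs at h <;> omega
  have info2 : colr k ((n - 1 : ℕ) : ℤ) (T (n - 1)) = colr k 0 (T n) →
      k - 1 ≤ T (n - 1) ∧ k - 1 ≤ T 0 := by
    intro h
    have hTn : T n = T 0 := by simp [hTdef]
    have h1 := hTs (n - 1)
    rw [Nat.sub_add_cancel (by omega)] at h1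
    have h2 := hTb (n - 1)
    have h3 := hTb n
    unfold colr at h
    rw [← hTn]
    have e : ((n - 1 : ℕ) : ℤ) = 2 * k := by omega
    rw [e] at h
    split_ifs at h <;> omega
  -- regions
  have hval : ∀ i : ZMod n, ((i.val : ℕ) : ZMod n) = i := fun i => ZMod.natCast_zmod_val i
  have hTv : ∀ i : ZMod n, T i.val = t i := fun i => by simp only [hTdef, hval]
  have hsucc : ∀ i : ZMod n, i.val + 1 < n → (i + 1).val = i.val + 1 ∧
      t (i + 1) = T (i.val + 1) := by
    intro i hi
    have h1 : (i + 1) = ((i.val + 1 : ℕ) : ZMod n) := by push_cast; rw [hval]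
    constructor
    · rw [h1, ZMod.val_natCast, Nat.mod_eq_of_lt hi]
    · rw [h1]
  have hlast : ∀ i : ZMod n, i.val + 1 = n → (i + 1).val = 0 ∧ t (i + 1) = T n := by
    intro i hi
    have h1 : (i + 1) = ((n : ℕ) : ZMod n) := by
      have h0 := congrArg (Nat.cast : ℕ → ZMod n) hi
      rw [← h0]; push_cast; rw [hval]
    constructor
    · rw [h1]; simp
    · rw [h1]
  have I1 : ∀ i : ZMod n, i.val + 1 < n →
      colr k i.val (t i) = colr k (i + 1).val (t (i + 1)) →
      (k ≤ i.val ∧ T (i.val + 1) = i.val - k - 1 ∧ T i.val = i.val - k) ∨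
      ((i.val : ℤ) < k ∧ T i.val = k - i.val - 2 ∧ T (i.val + 1) = k - i.val - 1) := by
    intro i hi h
    obtain ⟨h1, h2⟩ := hsucc i hi
    rw [h1, h2, ← hTv] at h
    exact info i.val hi h
  have I2 : ∀ i : ZMod n, i.val + 1 = n →
      colr k i.val (t i) = colr k (i + 1).val (t (i + 1)) →
      k - 1 ≤ T (n - 1) ∧ k - 1 ≤ T 0 := by
    intro i hi h
    obtain ⟨h1, h2⟩ := hlast i hi
    rw [h1, h2, ← hTv, show i.val = n - 1 by omega] at h
    exact info2 (by simpa using h)
  have hlt : ∀ i : ZMod n, i.val < n := fun i => ZMod.val_lt i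
  refine unique_of_regions hn (fun i => colr k i.val (t i)) (fun i => colr_val _ _ _)
    (fun i => if i.val + 1 = n then 2 else if k ≤ i.val then 0 else 1) ?_ ?_ ?_
  · intro i
    split_ifs <;> omega
  · intro i j hi hj hr
    apply ZMod.val_injective n
    have b1 := hlt i
    have b2 := hlt j
    by_cases hi1 : i.val + 1 = n
    · by_cases hj1 : j.val + 1 = n
      · omega
      · rw [if_pos hi1, if_neg hj1] at hr
        split_ifs at hr <;> omega
    · by_cases hj1 : j.val + 1 = n
      · rw [if_pos hj1, if_neg hi1] at hr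
        split_ifs at hr <;> omega
      · rw [if_neg hi1, if_neg hj1] at hr
        have c1 := I1 i (by omega) hi
        have c2 := I1 j (by omega) hj
        rcases lt_trichotomy i.val j.val with h | h | h
        · have h4 := hL (i.val + 1) j.val (by omega) (by omega)
          rw [abs_le] at h4
          push_cast at h4
          split_ifs at hr <;> omega
        · exact h
        · have h4 := hL (j.val + 1) i.val (by omega) (by omega)
          rw [abs_le] at h4
          push_cast at h4
          split_ifs at hr <;> omega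
  · intro i j hi hj hr
    have b1 := hlt i
    have b2 := hlt j
    have hi1 : i.val + 1 = n := by
      by_contra hne
      rw [if_neg hne] at hr
      split_ifs at hr <;> omega
    have c1 := I2 i hi1 hi
    by_cases hj1 : j.val + 1 = n
    · rw [if_pos hj1]
    · exfalso
      have c2 := I1 j (by omega) hj
      have h4 := hL (j.val + 1) (n - 1) (by omega) (by omega)
      have h5 := hL 0 j.val (by omega) (by omega)
      rw [abs_le] at h4 h5
      push_cast at h4 h5
      omega

/-- The case of a closed walk avoiding `z`. -/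
lemma caseB {n : ℕ} [NeZero n] (hn : Odd n) (k r : ℤ) (a t : ZMod n → ℤ) (hk : 1 ≤ k)
    (hnk : (n : ℤ) ≤ 2 * k + 1) (hnr : (n : ℤ) ≤ 2 * r + 1) (ht0 : ∀ i, 0 ≤ t i ∧ t i ≤ r - 1)
    (ha0 : ∀ i, 0 ≤ a i ∧ a i ≤ 2 * k) (hst : ∀ i, St k r (a i) (t i) (a (i + 1)) (t (i + 1))) :
    ∃ m, ∀ i : ZMod n, colr k (a i) (t i) = colr k (a (i + 1)) (t (i + 1)) → i = m := by
  -- the signs of the steps
  have hδ : ∀ i, ∃ d : ℤ, (d = 1 ∨ d = -1) ∧ (2 * k + 1) ∣ a (i + 1) - a i - d := by
    intro i
    rcases (hst i).ha (ht0 i).1 (ht0 (i + 1)).1 with h | h | h | h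
    · exact ⟨1, Or.inl rfl, by rw [h]; simp⟩
    · exact ⟨-1, Or.inr rfl, by rw [h]; simp⟩
    · exact ⟨-1, Or.inr rfl, by rw [h.1, h.2]; simp⟩
    · exact ⟨1, Or.inl rfl, by rw [h.1, h.2]; exact ⟨-1, by ring⟩⟩
  choose d hd1 hd2 using hδ
  have hsum : (2 * k + 1) ∣ ∑ i, d i := by
    have h1 : (2 * k + 1) ∣ ∑ i, (a (i + 1) - a i - d i) := Finset.dvd_sum fun i _ => hd2 i
    have h2 : ∑ i : ZMod n, a (i + 1) = ∑ i : ZMod n, a i :=
      Equiv.sum_comp (Equiv.addRight (1 : ZMod n)) a
    rw [Finset.sum_sub_distrib, Finset.sum_sub_distrib, h2, sub_self, zero_sub] at h1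
    exact (dvd_neg.1 h1)
  have hcard : (Finset.univ : Finset (ZMod n)).card = n := by
    rw [Finset.card_univ, ZMod.card]
  have hub : ∑ i, d i ≤ n := by
    have : ∑ i : ZMod n, d i ≤ ∑ _i : ZMod n, (1 : ℤ) :=
      Finset.sum_le_sum fun i _ => by rcases hd1 i with h | h <;> omega
    simpa [hcard] using this
  have hlb : -(n : ℤ) ≤ ∑ i, d i := by
    have : ∑ _i : ZMod n, (-1 : ℤ) ≤ ∑ i : ZMod n, d i :=
      Finset.sum_le_sum fun i _ => by rcases hd1 i with h | h <;> omega
    simpa [hcard] using this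
  have hparity : (∑ i, d i) % 2 = 1 := by
    have h1 : (2 : ℤ) ∣ ∑ i : ZMod n, (d i - 1) := Finset.dvd_sum fun i _ => by
      rcases hd1 i with h | h <;> rw [h] <;> norm_num
    rw [Finset.sum_sub_distrib] at h1
    simp only [Finset.sum_const, hcard, nsmul_eq_mul, mul_one] at h1
    obtain ⟨q, hq⟩ := hn
    omega
  obtain ⟨q, hq⟩ := hsum
  have hq0 : q ≠ 0 := by rintro rfl; rw [hq] at hparity; simp at hparity
  have hkn : (n : ℤ) = 2 * k + 1 := by
    rcases lt_or_gt_of_ne hq0 with h | h
    · have : (2 * k + 1) * q ≤ -(2 * k + 1) := by nlinarith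
      omega
    · have : (2 * k + 1) ≤ (2 * k + 1) * q := by nlinarith
      omega
  have hall : ∃ e : ℤ, (e = 1 ∨ e = -1) ∧ ∀ i, d i = e := by
    rcases lt_or_gt_of_ne hq0 with h | h
    · refine ⟨-1, Or.inr rfl, fun i => ?_⟩
      have h1 : (2 * k + 1) * q ≤ -(2 * k + 1) := by nlinarith
      have h2 : ∑ i : ZMod n, (d i + 1) = 0 := by
        rw [Finset.sum_add_distrib]
        simp only [Finset.sum_const, hcard, nsmul_eq_mul, mul_one]
        omega
      have h3 := (Finset.sum_eq_zero_iff_of_nonneg (fun i _ => by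
        rcases hd1 i with h | h <;> omega)).1 h2 i (Finset.mem_univ i)
      omega
    · refine ⟨1, Or.inl rfl, fun i => ?_⟩
      have h1 : (2 * k + 1) ≤ (2 * k + 1) * q := by nlinarith
      have h2 : ∑ i : ZMod n, (1 - d i) = 0 := by
        rw [Finset.sum_sub_distrib]
        simp only [Finset.sum_const, hcard, nsmul_eq_mul, mul_one]
        omega
      have h3 := (Finset.sum_eq_zero_iff_of_nonneg (fun i _ => by
        rcases hd1 i with h | h <;> omega)).1 h2 i (Finset.mem_univ i)
      omega
  obtain ⟨e, he, hde⟩ := hall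
  -- the coordinate as an element of `ZMod n`
  have hstep : ∀ i : ZMod n, ((a (i + 1) : ℤ) : ZMod n) = (a i : ℤ) + (e : ℤ) := by
    intro i
    have h1 := hd2 i
    rw [hde i, ← hkn] at h1
    have h2 := (ZMod.intCast_zmod_eq_zero_iff_dvd _ n).2 h1
    push_cast at h2
    linear_combination h2
  have hlin : ∀ i : ZMod n, ((a i : ℤ) : ZMod n) = (a 0 : ℤ) + (e : ℤ) * i := by
    intro i
    have h1 : ∀ s : ℕ, ((a (s : ZMod n) : ℤ) : ZMod n) = (a 0 : ℤ) + (e : ℤ) * (s : ZMod n) := by
      intro s
      induction s with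
      | zero => simp
      | succ s ih =>
        push_cast
        rw [hstep, ih]
        ring
    have := h1 i.val
    rwa [ZMod.natCast_zmod_val] at this
  set x0 : ZMod n := ((a 0 : ℤ) : ZMod n) with hx0
  set E : ZMod n := ((e : ℤ) : ZMod n) with hE
  have hEE : E * E = 1 := by
    rcases he with h | h <;> rw [hE, h] <;> push_cast <;> ring
  have hidx : ∀ y : ZMod n, a (E * (y - x0)) = y.val := by
    intro y
    have h1 : ((a (E * (y - x0)) : ℤ) : ZMod n) = ((y.val : ℤ) : ZMod n) := by
      rw [hlin]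
      push_cast
      rw [ZMod.natCast_zmod_val, ← mul_assoc, hEE]
      ring
    have h2 := (ZMod.intCast_eq_intCast_iff_dvd_sub _ _ n).1 h1
    have h3 := ha0 (E * (y - x0))
    have h4 := ZMod.val_lt y
    obtain ⟨c, hc⟩ := h2
    have hc0 : c = 0 := by
      rcases lt_trichotomy c 0 with h | h | h
      · have : (n : ℤ) * c ≤ -n := by nlinarith
        omega
      · exact h
      · have : (n : ℤ) ≤ n * c := by nlinarith
        omega
    rw [hc0] at hc
    omega
  -- the relation between the two parametrisations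
  have hSt : ∀ y : ZMod n, St k r (a (E * (y - x0))) (t (E * (y - x0)))
      (a (E * (y + 1 - x0))) (t (E * (y + 1 - x0))) := by
    intro y
    rcases he with h | h
    · have hE1 : E = 1 := by rw [hE, h]; simp
      have := hst (E * (y - x0))
      rw [show E * (y - x0) + 1 = E * (y + 1 - x0) by rw [hE1]; ring] at this
      exact this
    · have hE1 : E = -1 := by rw [hE, h]; simp
      have := (hst (E * (y + 1 - x0))).symm
      rw [show E * (y + 1 - x0) + 1 = E * (y - x0) by rw [hE1]; ring] at this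
      exact this
  obtain ⟨m, hm⟩ := caseB_norm hn k r (fun y => t (E * (y - x0))) hk hkn (by omega)
    (fun y => ht0 _) (fun y => (hSt y).ht)
  rcases he with h | h
  · have hE1 : E = 1 := by rw [hE, h]; simp
    refine ⟨m - x0, fun i hi => ?_⟩
    have h1 := hm (i + x0) (by
      have e1 := hidx (i + x0)
      have e2 := hidx (i + x0 + 1)
      rw [← e1, ← e2, show E * (i + x0 - x0) = i by rw [hE1]; ring,
        show E * (i + x0 + 1 - x0) = i + 1 by rw [hE1]; ring]
      exact hi)
    rw [← h1]; ring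
  · have hE1 : E = -1 := by rw [hE, h]; simp
    refine ⟨x0 - m - 1, fun i hi => ?_⟩
    have h1 := hm (x0 - (i + 1)) (by
      have e1 := hidx (x0 - (i + 1))
      have e2 := hidx (x0 - (i + 1) + 1)
      rw [← e1, ← e2, show E * (x0 - (i + 1) - x0) = i + 1 by rw [hE1]; ring,
        show E * (x0 - (i + 1) + 1 - x0) = i by rw [hE1]; ring]
      exact hi.symm)
    rw [← h1]; ring

/-- The case of a closed walk through `z`. -/
lemma caseA {n : ℕ} [NeZero n] (hn : Odd n) (k r : ℤ) (a t : ZMod n → ℤ) (hk : 1 ≤ k)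
    (hr : 1 ≤ r) (hn3 : 3 ≤ n)
    (hnk : (n : ℤ) ≤ 2 * k + 1) (hnr : (n : ℤ) ≤ 2 * r + 1) (ht0 : ∀ i, -1 ≤ t i ∧ t i ≤ r - 1)
    (ha0 : ∀ i, 0 ≤ a i ∧ a i ≤ 2 * k) (hst : ∀ i, St k r (a i) (t i) (a (i + 1)) (t (i + 1)))
    (hU : ∀ i j, t i = -1 → t j = -1 → i = j) (i0 : ZMod n) (hi0 : t i0 = -1) :
    ∃ m, ∀ i : ZMod n, colr k (a i) (t i) = colr k (a (i + 1)) (t (i + 1)) → i = m := by
  set T : ℕ → ℤ := fun s => t (i0 + s) with hTdef
  set A : ℕ → ℤ := fun s => a (i0 + s) with hAdef
  have hT0 : T 0 = -1 := by simp [hTdef, hi0]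
  have hTn : T n = -1 := by simp [hTdef, hi0]
  have hS : ∀ s, St k r (A s) (T s) (A (s + 1)) (T (s + 1)) := by
    intro s
    have := hst (i0 + s)
    simp only [hTdef, hAdef]
    push_cast
    rw [← add_assoc]
    exact this
  have hTb : ∀ s, -1 ≤ T s ∧ T s ≤ r - 1 := fun s => ht0 _
  have hAb : ∀ s, 0 ≤ A s ∧ A s ≤ 2 * k := fun s => ha0 _
  have hpos : ∀ s, 0 < s → s < n → 0 ≤ T s := by
    intro s h1 h2
    have h3 := hTb s
    by_contra h4
    have h5 : t (i0 + s) = -1 := by
      have : T s = -1 := by omega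
      exact this
    have h6 := hU _ _ h5 hi0
    have h7 : ((s : ℕ) : ZMod n) = 0 := by
      have : i0 + s = i0 + 0 := by rw [h6, add_zero]
      exact add_left_cancel this
    rw [ZMod.natCast_eq_zero_iff] at h7
    exact absurd (Nat.le_of_dvd h1 h7) (by omega)
  have hL := lip (T := T) (N := n) (fun s _ => by rw [abs_le]; have := (hS s).ht; omega)
  -- a horizontal edge
  obtain ⟨s0, hs0, hs1, hs2⟩ : ∃ s0, s0 < n ∧ T s0 = r - 1 ∧ T (s0 + 1) = r - 1 := by
    by_contra hcon
    push Not at hcon
    have hpar : ∀ s, s ≤ n → (T s - s + 1) % 2 = 0 := by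
      intro s
      induction s with
      | zero => intro _; rw [hT0]; norm_num
      | succ s ih =>
        intro hs
        have h1 := ih (by omega)
        have h2 := (hS s).ht
        have h3 := hcon s (by omega)
        push_cast
        rcases h2 with h2 | h2 | h2
        · omega
        · omega
        · exact absurd h2.2 (h3 h2.1)
    have h1 := hpar n le_rfl
    rw [hTn] at h1
    obtain ⟨q, hq⟩ := hn
    omega
  have hl1 := hL 0 s0 (by omega) (by omega)
  have hl2 := hL (s0 + 1) n (by omega) le_rfl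
  rw [abs_le] at hl1 hl2
  push_cast at hl1 hl2
  have hs0r : (s0 : ℤ) = r := by omega
  have hnr2 : (n : ℤ) = 2 * r + 1 := by omega
  have hrk : r ≤ k := by omega
  have hTd : ∀ s : ℕ, (s : ℤ) ≤ r → T s = s - 1 := by
    intro s hs
    have h1 := hL 0 s (by omega) (by omega)
    have h2 := hL s s0 (by omega) (by omega)
    rw [abs_le] at h1 h2
    push_cast at h1 h2
    omega
  have hTa : ∀ s : ℕ, r < (s : ℤ) → s ≤ n → T s = 2 * r - s := by
    intro s hs hs'
    have h1 := hL (s0 + 1) s (by omega) (by omega)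
    have h2 := hL s n (by omega) le_rfl
    rw [abs_le] at h1 h2
    push_cast at h1 h2
    omega
  -- inside
  have insd : ∀ s : ℕ, 1 ≤ s → (s : ℤ) < r → -T s ≤ A s - k ∧ A s - k ≤ T s →
      -T (s + 1) ≤ A (s + 1) - k ∧ A (s + 1) - k ≤ T (s + 1) := by
    intro s h1 h2 h3
    have e1 := hTd s (by omega)
    have e2 := hTd (s + 1) (by push_cast; omega)
    have e3 := (hS s).ha (by omega) (by push_cast at e2; omega)
    push_cast at e2
    omega
  have insd' : ∀ x y : ℕ, 1 ≤ x → x ≤ y → (y : ℤ) ≤ r → -T x ≤ A x - k ∧ A x - k ≤ T x →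
      -T y ≤ A y - k ∧ A y - k ≤ T y := by
    intro x y hx hxy
    induction y, hxy using Nat.le_induction with
    | base => intro _ h; exact h
    | succ y hxy ih =>
      intro h1 h2
      push_cast at h1
      exact insd y (by omega) (by omega) (ih (by omega) h2)
  have insa : ∀ s : ℕ, r < (s : ℤ) → s + 1 < n →
      -T (s + 1) ≤ A (s + 1) - k ∧ A (s + 1) - k ≤ T (s + 1) →
      -T s ≤ A s - k ∧ A s - k ≤ T s := by
    intro s h1 h2 h3
    have e1 := hTa s h1 (by omega)
    have e2 := hTa (s + 1) (by push_cast; omega) (by omega)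
    have e3 := (hS s).ha (by omega) (by push_cast at e2 ⊢; omega)
    push_cast at e2
    omega
  have insa' : ∀ x y : ℕ, r < (x : ℤ) → x ≤ y → y < n → -T y ≤ A y - k ∧ A y - k ≤ T y →
      -T x ≤ A x - k ∧ A x - k ≤ T x := by
    intro x y hx hxy
    induction y, hxy using Nat.le_induction with
    | base => intro _ h; exact h
    | succ y hxy ih =>
      intro h1 h2
      exact ih (by omega) (insa y (by omega) h1 h2)
  -- monochromatic edges
  have mono_d : ∀ s : ℕ, (s : ℤ) < r → colr k (A s) (T s) = colr k (A (s + 1)) (T (s + 1)) →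
      (-T (s + 1) ≤ A (s + 1) - k ∧ A (s + 1) - k ≤ T (s + 1)) ∧
      ¬ (-T s ≤ A s - k ∧ A s - k ≤ T s) := by
    intro s h1 h2
    have e1 := hTd s (by omega)
    have e2 := hTd (s + 1) (by push_cast; omega)
    have e4 := hAb s
    have e5 := hAb (s + 1)
    push_cast at e2
    rcases Nat.eq_zero_or_pos s with hs | hs
    · subst hs
      unfold colr at h2
      push_cast at h2 e2 ⊢
      split_ifs at h2 <;> omega
    · have e3 := (hS s).ha (by omega) (by omega)
      unfold colr at h2
      split_ifs at h2 <;> omega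
  have mono_a : ∀ s : ℕ, r < (s : ℤ) → s < n →
      colr k (A s) (T s) = colr k (A (s + 1)) (T (s + 1)) →
      (-T s ≤ A s - k ∧ A s - k ≤ T s) ∧
      ¬ (-T (s + 1) ≤ A (s + 1) - k ∧ A (s + 1) - k ≤ T (s + 1)) := by
    intro s h1 h2 h3
    have e1 := hTa s h1 (by omega)
    have e2 := hTa (s + 1) (by push_cast; omega) (by omega)
    have e4 := hAb s
    have e5 := hAb (s + 1)
    push_cast at e2
    rcases Nat.lt_or_ge (s + 1) n with hs | hs
    · have e3 := (hS s).ha (by omega) (by omega)
      unfold colr at h3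
      split_ifs at h3 <;> omega
    · have e6 : (s : ℤ) = 2 * r := by omega
      unfold colr at h3
      split_ifs at h3 <;> omega
  have mono_h : ∀ s : ℕ, (s : ℤ) = r → colr k (A s) (T s) = colr k (A (s + 1)) (T (s + 1)) →
      ¬ (-T s ≤ A s - k ∧ A s - k ≤ T s) ∧
      ¬ (-T (s + 1) ≤ A (s + 1) - k ∧ A (s + 1) - k ≤ T (s + 1)) := by
    intro s h1 h3
    have e1 := hTd s (by omega)
    have e2 := hTa (s + 1) (by push_cast; omega) (by omega)
    have e4 := hAb s
    have e5 := hAb (s + 1)
    push_cast at e2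
    have e3 := (hS s).ha (by omega) (by omega)
    unfold colr at h3
    split_ifs at h3 <;> omega
  -- indices
  have hidx : ∀ i : ZMod n, i0 + (((i - i0).val : ℕ) : ZMod n) = i := by
    intro i; rw [ZMod.natCast_zmod_val]; ring
  have hTi : ∀ i : ZMod n, T (i - i0).val = t i := fun i => by simp only [hTdef, hidx]
  have hAi : ∀ i : ZMod n, A (i - i0).val = a i := fun i => by simp only [hAdef, hidx]
  have hTi1 : ∀ i : ZMod n, T ((i - i0).val + 1) = t (i + 1) := fun i => by
    simp only [hTdef]; push_cast; rw [← add_assoc, hidx]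
  have hAi1 : ∀ i : ZMod n, A ((i - i0).val + 1) = a (i + 1) := fun i => by
    simp only [hAdef]; push_cast; rw [← add_assoc, hidx]
  have hlt : ∀ i : ZMod n, (i - i0).val < n := fun i => ZMod.val_lt _
  have conv : ∀ i : ZMod n, colr k (a i) (t i) = colr k (a (i + 1)) (t (i + 1)) →
      colr k (A (i - i0).val) (T (i - i0).val) =
        colr k (A ((i - i0).val + 1)) (T ((i - i0).val + 1)) := by
    intro i hi
    rw [hTi, hAi, hTi1, hAi1]; exact hi
  have hinj : ∀ i j : ZMod n, (i - i0).val = (j - i0).val → i = j := by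
    intro i j h
    have := ZMod.val_injective n h
    exact sub_left_injective this
  refine unique_of_regions hn (fun i => colr k (a i) (t i)) (fun i => colr_val _ _ _)
    (fun i => if (((i - i0).val : ℕ) : ℤ) < r then 0 else if (((i - i0).val : ℕ) : ℤ) = r then 2
      else 1) ?_ ?_ ?_
  · intro i
    split_ifs <;> omega
  · intro i j hi hj hreg
    apply hinj
    have c1 := conv i hi
    have c2 := conv j hj
    have l1 := hlt i
    have l2 := hlt j
    generalize (i - i0).val = x at *
    generalize (j - i0).val = y at *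
    by_cases hx : (x : ℤ) < r
    · by_cases hy : (y : ℤ) < r
      · have d1 := mono_d x hx c1
        have d2 := mono_d y hy c2
        rcases lt_trichotomy x y with h | h | h
        · exact absurd (insd' (x + 1) y (by omega) (by omega) (by omega) d1.1) d2.2
        · exact h
        · exact absurd (insd' (y + 1) x (by omega) (by omega) (by omega) d2.1) d1.2
      · rw [if_pos hx, if_neg hy] at hreg
        split_ifs at hreg <;> omega
    · by_cases hy : (y : ℤ) < r
      · rw [if_neg hx, if_pos hy] at hreg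
        split_ifs at hreg <;> omega
      · rw [if_neg hx, if_neg hy] at hreg
        by_cases hx2 : (x : ℤ) = r
        · rw [if_pos hx2] at hreg
          split_ifs at hreg <;> omega
        · rw [if_neg hx2] at hreg
          by_cases hy2 : (y : ℤ) = r
          · rw [if_pos hy2] at hreg
            omega
          · have d1 := mono_a x (by omega) l1 c1
            have d2 := mono_a y (by omega) l2 c2
            rcases lt_trichotomy x y with h | h | h
            · exact absurd (insa' (x + 1) y (by push_cast; omega) (by omega) (by omega) d2.1) d1.2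
            · exact h
            · exact absurd (insa' (y + 1) x (by push_cast; omega) (by omega) (by omega) d1.1) d2.2
  · intro i j hi hj hreg
    have c1 := conv i hi
    have c2 := conv j hj
    have l1 := hlt i
    have l2 := hlt j
    generalize (i - i0).val = x at *
    generalize (j - i0).val = y at *
    have hx : (x : ℤ) = r := by
      by_contra hne
      split_ifs at hreg <;> omega
    have d1 := mono_h x hx c1
    rcases lt_trichotomy (y : ℤ) r with h | h | h
    · exfalso
      have d2 := mono_d y h c2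
      exact d1.1 (insd' (y + 1) x (by omega) (by omega) (by omega) d2.1)
    · rw [if_neg (by omega), if_pos h]
    · exfalso
      have d2 := mono_a y h l2 c2
      exact d1.2 (insa' (x + 1) y (by push_cast; omega) (by omega) (by omega) d2.1)

/-! ## Coordinates on the generalized Mycielski graph of an odd cycle -/

/-- horizontal coordinate -/
def ca (k r : ℕ) : Option (Fin (2 * k + 1) × Fin r) → ℤ
  | none => 0
  | some (u, _) => u.val

/-- depth coordinate, equal to `-1` exactly at `z` -/
def ct (k r : ℕ) : Option (Fin (2 * k + 1) × Fin r) → ℤ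
  | none => -1
  | some (_, i) => (r : ℤ) - 1 - i.val

lemma cycle_adj {k : ℕ} {u v : Fin (2 * k + 1)} (h : (SimpleGraph.cycleGraph (2 * k + 1)).Adj u v) :
    v.val = u.val + 1 ∨ u.val = v.val + 1 ∨ (u.val = 0 ∧ v.val = 2 * k) ∨
      (u.val = 2 * k ∧ v.val = 0) := by
  rw [SimpleGraph.cycleGraph_adj'] at h
  have hu := u.isLt
  have hv := v.isLt
  rcases h with h | h
  · rw [Fin.sub_def] at h
    simp only at h
    rcases Nat.lt_or_ge (2 * k + 1 - v.val + u.val) (2 * k + 1) with h1 | h1
    · rw [Nat.mod_eq_of_lt h1] at h; omega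
    · rw [Nat.mod_eq_sub_mod h1, Nat.mod_eq_of_lt (by omega)] at h; omega
  · rw [Fin.sub_def] at h
    simp only at h
    rcases Nat.lt_or_ge (2 * k + 1 - u.val + v.val) (2 * k + 1) with h1 | h1
    · rw [Nat.mod_eq_of_lt h1] at h; omega
    · rw [Nat.mod_eq_sub_mod h1, Nat.mod_eq_of_lt (by omega)] at h; omega

lemma cycle_adj_succ {k : ℕ} (hk : 1 ≤ k) {u v : Fin (2 * k + 1)}
    (h : v.val = u.val + 1 ∨ (u.val = 2 * k ∧ v.val = 0)) :
    (SimpleGraph.cycleGraph (2 * k + 1)).Adj u v := by
  rw [SimpleGraph.cycleGraph_adj']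
  have hu := u.isLt
  have hv := v.isLt
  right
  rw [Fin.sub_def]
  simp only
  rcases h with h | h
  · rw [Nat.mod_eq_sub_mod (by omega), Nat.mod_eq_of_lt (by omega)]; omega
  · rw [Nat.mod_eq_of_lt (by omega)]; omega

lemma st_of_adj {k r : ℕ} (p q : Option (Fin (2 * k + 1) × Fin r))
    (h : (genMycielski (SimpleGraph.cycleGraph (2 * k + 1)) r).Adj p q) :
    St k r (ca k r p) (ct k r p) (ca k r q) (ct k r q) := by
  rcases p with _ | ⟨u, i⟩ <;> rcases q with _ | ⟨v, j⟩
  · exact h.elim
  · have h' : j.val + 1 = r := h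
    refine ⟨?_, ?_⟩
    · simp only [ct]; omega
    · simp only [ct]; omega
  · have h' : i.val + 1 = r := h
    refine ⟨?_, ?_⟩
    · simp only [ct]; omega
    · simp only [ct]; omega
  · have h' := h.1
    have h2 := h.2
    have h3 := cycle_adj h'
    have hi := i.isLt
    have hj := j.isLt
    refine ⟨?_, ?_⟩
    · simp only [ct]; omega
    · intro _ _
      simp only [ca]; omega

lemma ct_bounds {k r : ℕ} (p : Option (Fin (2 * k + 1) × Fin r)) :
    -1 ≤ ct k r p ∧ ct k r p ≤ r - 1 := by
  rcases p with _ | ⟨u, i⟩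
  · simp only [ct]; omega
  · have hi := i.isLt
    simp only [ct]; omega

lemma ca_bounds {k r : ℕ} (p : Option (Fin (2 * k + 1) × Fin r)) :
    0 ≤ ca k r p ∧ ca k r p ≤ 2 * k := by
  rcases p with _ | ⟨u, i⟩
  · simp only [ca]; omega
  · have hi := u.isLt
    simp only [ca]; omega

lemma ct_eq {k r : ℕ} (p : Option (Fin (2 * k + 1) × Fin r)) : ct k r p = -1 ↔ p = none := by
  rcases p with _ | ⟨u, i⟩
  · simp [ct]
  · have hi := i.isLt
    simp only [ct]
    constructor
    · intro h; omega
    · intro h; cases h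

/-! ## Short odd cycles -/

/-- A sequence of vertices indexed by `0, …, n - 1` gives a cycle. -/
lemma isCycle_of_nat {V : Type*} (G : SimpleGraph V) (n : ℕ) (hn : 3 ≤ n) (f : ℕ → V)
    (hinj : ∀ x y, x < n → y < n → f x = f y → x = y)
    (hadj : ∀ x, x + 1 < n → G.Adj (f x) (f (x + 1))) (hlast : G.Adj (f (n - 1)) (f 0)) :
    IsCycle G n (fun i : ZMod n => f i.val) := by
  have : NeZero n := ⟨by omega⟩
  refine ⟨hn, ?_, ?_⟩
  · intro i j h
    exact ZMod.val_injective n (hinj _ _ (ZMod.val_lt i) (ZMod.val_lt j) h)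
  · intro i
    have hi := ZMod.val_lt i
    have hval : ((i.val : ℕ) : ZMod n) = i := ZMod.natCast_zmod_val i
    rcases Nat.lt_or_ge (i.val + 1) n with h | h
    · have h1 : (i + 1) = ((i.val + 1 : ℕ) : ZMod n) := by push_cast; rw [hval]
      have h2 : (i + 1).val = i.val + 1 := by
        rw [h1, ZMod.val_natCast, Nat.mod_eq_of_lt h]
      simp only [h2]
      exact hadj _ h
    · have h3 : i.val + 1 = n := by omega
      have h1 : (i + 1) = ((n : ℕ) : ZMod n) := by
        have h0 := congrArg (Nat.cast : ℕ → ZMod n) h3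
        rw [← h0]; push_cast; rw [hval]
      have h2 : (i + 1).val = 0 := by rw [h1]; simp
      simp only [h2]
      rw [show i.val = n - 1 by omega]
      exact hlast

lemma base_cycle (r k : ℕ) (hr : 1 ≤ r) (hk : 1 ≤ k) :
    ∃ c, IsCycle (genMycielski (SimpleGraph.cycleGraph (2 * k + 1)) r) (2 * k + 1) c := by
  refine ⟨_, isCycle_of_nat _ _ (by omega)
    (fun x => some (⟨x % (2 * k + 1), Nat.mod_lt _ (by omega)⟩, ⟨0, by omega⟩)) ?_ ?_ ?_⟩
  · intro x y hx hy h
    simp only [Option.some.injEq, Prod.mk.injEq, Fin.mk.injEq, and_true] at h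
    rwa [Nat.mod_eq_of_lt hx, Nat.mod_eq_of_lt hy] at h
  · intro x hx
    refine ⟨cycle_adj_succ hk (Or.inl ?_), Or.inl ⟨rfl, rfl⟩⟩
    simp only
    rw [Nat.mod_eq_of_lt hx, Nat.mod_eq_of_lt (by omega)]
  · refine ⟨cycle_adj_succ hk (Or.inr ⟨?_, ?_⟩), Or.inl ⟨rfl, rfl⟩⟩
    · simp only
      rw [Nat.mod_eq_of_lt (by omega)]; omega
    · simp

/-- the vertices of a cycle of length `2 r + 1` through `z` -/
def zc (r k : ℕ) (hr : 1 ≤ r) (hk : 1 ≤ k) (s : ℕ) : Option (Fin (2 * k + 1) × Fin r) :=
  if s = 0 then none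
  else if s ≤ r then some (⟨(r - s) % 2, by omega⟩, ⟨min (r - s) (r - 1), by omega⟩)
  else some (⟨(s - r) % 2, by omega⟩, ⟨min (s - r - 1) (r - 1), by omega⟩)

lemma z_cycle (r k : ℕ) (hr : 1 ≤ r) (hk : 1 ≤ k) :
    ∃ c, IsCycle (genMycielski (SimpleGraph.cycleGraph (2 * k + 1)) r) (2 * r + 1) c := by
  refine ⟨_, isCycle_of_nat _ _ (by omega) (zc r k hr hk) ?_ ?_ ?_⟩
  · intro x y hx hy h
    unfold zc at h
    split_ifs at h <;>
      simp only [Option.some.injEq, Prod.mk.injEq, Fin.mk.injEq, reduceCtorEq] at h <;> omega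
  · intro x hx
    unfold zc
    by_cases h0 : x = 0
    · subst h0
      rw [if_pos rfl, if_neg (by omega), if_pos (by omega)]
      show min (r - (0 + 1)) (r - 1) + 1 = r
      omega
    · rw [if_neg h0, if_neg (show ¬ (x + 1 = 0) by omega)]
      by_cases h1 : x ≤ r
      · rw [if_pos h1]
        by_cases h2 : x + 1 ≤ r
        · rw [if_pos h2]
          refine ⟨?_, ?_⟩
          · rcases Nat.mod_two_eq_zero_or_one (r - x) with h | h
            · exact cycle_adj_succ hk (Or.inl (by simp only; omega))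
            · exact (cycle_adj_succ hk (Or.inl (by simp only; omega))).symm
          · simp only; omega
        · rw [if_neg h2]
          refine ⟨?_, ?_⟩
          · exact cycle_adj_succ hk (Or.inl (by simp only; omega))
          · simp only; omega
      · rw [if_neg h1, if_neg (by omega)]
        refine ⟨?_, ?_⟩
        · rcases Nat.mod_two_eq_zero_or_one (x - r) with h | h
          · exact cycle_adj_succ hk (Or.inl (by simp only; omega))
          · exact (cycle_adj_succ hk (Or.inl (by simp only; omega))).symm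
        · simp only; omega
  · unfold zc
    rw [if_pos rfl, if_neg (by omega), if_neg (by omega)]
    show min (2 * r + 1 - 1 - r - 1) (r - 1) + 1 = r
    omega

/-! ## The theorem -/

/-- For all `r, k ≥ 1` the generalized Mycielski graph `M_r(C_{2k+1})` has an orientation in which
every shortest odd cycle is alternating. -/
theorem result : ∀ r k : ℕ, 1 ≤ r → 1 ≤ k →
    ∃ D : Option (Fin (2 * k + 1) × Fin r) → Option (Fin (2 * k + 1) × Fin r) → Prop,
      IsOrientation (genMycielski (SimpleGraph.cycleGraph (2 * k + 1)) r) D ∧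
      ∀ (n : ℕ) (c : ZMod n → Option (Fin (2 * k + 1) × Fin r)),
        IsShortestOddCycle (genMycielski (SimpleGraph.cycleGraph (2 * k + 1)) r) n c →
          Alternating D n c := by
  intro r k hr hk
  refine ⟨ori (genMycielski (SimpleGraph.cycleGraph (2 * k + 1)) r)
    (fun p => colr k (ca k r p) (ct k r p)), ori_isOrientation _ _, ?_⟩
  intro n c hc
  obtain ⟨hcyc, hodd, hmin⟩ := hc
  obtain ⟨c1, hc1⟩ := base_cycle r k hr hk
  obtain ⟨c2, hc2⟩ := z_cycle r k hr hk
  have hn1 : n ≤ 2 * k + 1 := hmin _ c1 hc1 ⟨k, rfl⟩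
  have hn2 : n ≤ 2 * r + 1 := hmin _ c2 hc2 ⟨r, rfl⟩
  have hn3 : 3 ≤ n := hcyc.1
  have : NeZero n := ⟨by omega⟩
  have hst : ∀ i, St k r (ca k r (c i)) (ct k r (c i)) (ca k r (c (i + 1))) (ct k r (c (i + 1))) :=
    fun i => st_of_adj _ _ (hcyc.2.2 i)
  have key : ∃ m, ∀ i : ZMod n, colr k (ca k r (c i)) (ct k r (c i)) =
      colr k (ca k r (c (i + 1))) (ct k r (c (i + 1))) → i = m := by
    by_cases hz : ∃ i0, c i0 = none
    · obtain ⟨i0, hi0⟩ := hz
      refine caseA hodd k r (fun i => ca k r (c i)) (fun i => ct k r (c i)) (by omega) (by omega)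
        hn3 (by omega) (by omega) (fun i => ct_bounds _) (fun i => ca_bounds _) hst ?_ i0
        ((ct_eq _).2 hi0)
      intro i j hi hj
      apply hcyc.2.1
      rw [(ct_eq _).1 hi, (ct_eq _).1 hj]
    · push Not at hz
      refine caseB hodd k r (fun i => ca k r (c i)) (fun i => ct k r (c i)) (by omega)
        (by omega) (by omega) (fun i => ?_) (fun i => ca_bounds _) hst
      have h1 := ct_bounds (c i)
      have h2 : ct k r (c i) ≠ -1 := fun h => hz i ((ct_eq _).1 h)
      omega
  obtain ⟨m, hm⟩ := key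
  exact alternating_of_unique _ _ (fun v => colr_val _ _ _) n c hcyc m hm

end Pool.Agent.Results.MP_118fda_co.MycielskiAlternating
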